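import Pool.Agent.T9h5.NK.Cas

/-!
# The characteristic polynomials of the Casimir element
-/

set_option autoImplicit false
set_option linter.unusedSectionVars false

open Module Polynomial Finset TensorProduct

namespace Pool.Agent.T9h5.NK

section

variable {E : Type*} [Field E] {V₀ V₁ : Type*} [AddCommGroup V₀] [Module E V₀]
  [AddCommGroup V₁] [Module E V₁] (E' : Type*) [Field E'] [Algebra E E']

/-- Extension of scalars. -/
noncomputable def bc (a : Ops E V₀ V₁) : Ops E' (E' ⊗[E] V₀) (E' ⊗[E] V₁) :=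
  (a.1.baseChange E', a.2.baseChange E')

lemma bc_one : bc E' (1 : Ops E V₀ V₁) = 1 :=
  Prod.ext (LinearMap.baseChange_id) (LinearMap.baseChange_id)

lemma bc_mul (a b : Ops E V₀ V₁) : bc E' (a * b) = bc E' a * bc E' b :=
  Prod.ext (LinearMap.baseChange_comp b.1 a.1) (LinearMap.baseChange_comp b.2 a.2)

lemma bc_add (a b : Ops E V₀ V₁) : bc E' (a + b) = bc E' a + bc E' b :=
  Prod.ext (LinearMap.baseChange_add a.1 b.1) (LinearMap.baseChange_add a.2 b.2)

lemma bc_zero : bc E' (0 : Ops E V₀ V₁) = 0 :=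
  Prod.ext (LinearMap.baseChange_zero) (LinearMap.baseChange_zero)

lemma bc_smul (t : E) (a : Ops E V₀ V₁) : bc E' (t • a) = algebraMap E E' t • bc E' a := by
  refine Prod.ext ?_ ?_
  · change (t • a.1).baseChange E' = algebraMap E E' t • a.1.baseChange E'
    rw [LinearMap.baseChange_smul, algebraMap_smul]
  · change (t • a.2).baseChange E' = algebraMap E E' t • a.2.baseChange E'
    rw [LinearMap.baseChange_smul, algebraMap_smul]

/-- Extension of scalars as a homomorphism of monoids. -/
noncomputable def bcHom : Ops E V₀ V₁ →* Ops E' (E' ⊗[E] V₀) (E' ⊗[E] V₁) where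
  toFun := bc E'
  map_one' := bc_one E'
  map_mul' := bc_mul E'

lemma bc_sum {ι : Type*} (s : Finset ι) (a : ι → Ops E V₀ V₁) :
    bc E' (∑ i ∈ s, a i) = ∑ i ∈ s, bc E' (a i) := by
  classical
  induction s using Finset.induction_on with
  | empty => rw [Finset.sum_empty, Finset.sum_empty, bc_zero]
  | insert x s hx ih => rw [Finset.sum_insert hx, Finset.sum_insert hx, bc_add, ih]

variable [FiniteDimensional E V₀] [FiniteDimensional E V₁]

lemma str_bc (a : Ops E V₀ V₁) : str E' _ _ (bc E' a) = algebraMap E E' (str E V₀ V₁ a) := by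
  rw [str_apply, str_apply, map_sub]
  change LinearMap.trace E' _ (a.1.baseChange E') - LinearMap.trace E' _ (a.2.baseChange E') = _
  rw [LinearMap.trace_baseChange, LinearMap.trace_baseChange]

variable [CharZero E] [CharZero E'] {P : Submonoid (Ops E V₀ V₁)} {d : ℕ}
  {f : Fin d → Ops E V₀ V₁} {Γ Δ : Matrix (Fin d) (Fin d) ℚ}

lemma isNumBasis_bc (h : IsNumBasis P f Γ Δ) :
    IsNumBasis (P.map (bcHom E')) (fun i => bc E' (f i)) Γ Δ where
  mem i := ⟨f i, h.mem i, rfl⟩
  gram i j := by
    rw [← bc_mul, str_bc, h.gram]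
    exact map_ratCast (algebraMap E E') (Γ i j)
  inv := h.inv
  span := by
    rintro _ ⟨a, ha, rfl⟩
    obtain ⟨c, hc⟩ := h.span a ha
    refine ⟨c, ?_⟩
    rintro _ ⟨b, hb, rfl⟩
    change str E' _ _ (bc E' a * bc E' b) = ∑ i, (c i : E') * str E' _ _ (bc E' (f i) * bc E' b)
    rw [← bc_mul, str_bc, hc b hb, map_sum]
    refine Finset.sum_congr rfl fun i _ => ?_
    rw [← bc_mul, str_bc, map_mul, map_ratCast]

lemma bc_mem {a : Ops E V₀ V₁} (ha : a ∈ Submodule.span E (P : Set (Ops E V₀ V₁))) :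
    bc E' a ∈ Submodule.span E' ((P.map (bcHom E') : Submonoid _) :
      Set (Ops E' (E' ⊗[E] V₀) (E' ⊗[E] V₁))) := by
  induction ha using Submodule.span_induction with
  | mem x hx => exact Submodule.subset_span ⟨x, hx, rfl⟩
  | zero => rw [bc_zero]; exact Submodule.zero_mem _
  | add x y _ _ hx hy => rw [bc_add]; exact Submodule.add_mem _ hx hy
  | smul t x _ hx => rw [bc_smul]; exact Submodule.smul_mem _ _ hx

lemma bc_cas (f : Fin d → Ops E V₀ V₁) (Δ : Matrix (Fin d) (Fin d) ℚ) :
    bc E' (cas f Δ) = cas (fun i => bc E' (f i)) Δ := by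
  unfold cas
  rw [bc_sum]
  refine Finset.sum_congr rfl fun i _ => ?_
  rw [bc_sum]
  refine Finset.sum_congr rfl fun j _ => ?_
  rw [bc_smul, bc_mul, map_ratCast]

end

section

variable {E : Type*} [Field E] [CharZero E]

/-- The polynomial is a product of factors `X - q`, with rational numbers `q` which have the property
`Q`. -/
def RatSplit (Q : ℚ → Prop) (p : E[X]) : Prop :=
  ∃ s : Multiset ℚ, (∀ q ∈ s, Q q) ∧ p = (s.map fun q : ℚ => X - C (q : E)).prod

lemma ratSplit_of_roots {Q : ℚ → Prop} {p : E[X]} (hp : p.Monic)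
    (h : ∀ μ : AlgebraicClosure E, (p.map (algebraMap E (AlgebraicClosure E))).IsRoot μ →
      ∃ q : ℚ, Q q ∧ (q : AlgebraicClosure E) = μ) : RatSplit Q p := by
  classical
  set p' := p.map (algebraMap E (AlgebraicClosure E)) with hp'
  have hm : p'.Monic := hp.map _
  have hs : p'.Splits := IsAlgClosed.splits p'
  choose! g hg hg' using h
  refine ⟨p'.roots.map g, ?_, ?_⟩
  · intro q hq
    obtain ⟨μ, hμ, rfl⟩ := Multiset.mem_map.1 hq
    exact hg μ (isRoot_of_mem_roots hμ)
  · refine Polynomial.map_injective _ (algebraMap E (AlgebraicClosure E)).injective ?_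
    rw [← hp', Polynomial.map_multiset_prod, Multiset.map_map, Multiset.map_map]
    conv_lhs => rw [hs.eq_prod_roots_of_monic hm]
    congr 1
    refine Multiset.map_congr rfl fun μ hμ => ?_
    have := hg' μ (isRoot_of_mem_roots hμ)
    simp [this]

variable {V₀ V₁ : Type*} [AddCommGroup V₀] [Module E V₀] [AddCommGroup V₁] [Module E V₁]
  [FiniteDimensional E V₀] [FiniteDimensional E V₁] {P : Submonoid (Ops E V₀ V₁)} {d : ℕ}
  {f : Fin d → Ops E V₀ V₁} {Γ Δ : Matrix (Fin d) (Fin d) ℚ}

/-- **The characteristic polynomials of the Casimir element** if the projector to the even part is in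
the span. -/
theorem cas_split (h : IsNumBasis P f Γ Δ)
    (hπ : ((1, 0) : Ops E V₀ V₁) ∈ Submodule.span E (P : Set (Ops E V₀ V₁))) :
    RatSplit (fun q => 0 < q) (cas f Δ).1.charpoly ∧
      RatSplit (fun q => q < 0) (cas f Δ).2.charpoly := by
  have hπ' := bc_mem (AlgebraicClosure E) hπ
  have h10 : bc (AlgebraicClosure E) ((1, 0) : Ops E V₀ V₁) = (1, 0) :=
    Prod.ext (LinearMap.baseChange_id) (LinearMap.baseChange_zero)
  rw [h10] at hπ'
  constructor
  · refine ratSplit_of_roots (LinearMap.charpoly_monic _) fun μ hμ => ?_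
    refine root_fst (isNumBasis_bc (AlgebraicClosure E) h) hπ' μ ?_
    rw [← bc_cas]
    change ((cas f Δ).1.baseChange (AlgebraicClosure E)).charpoly.IsRoot μ
    rwa [LinearMap.charpoly_baseChange]
  · refine ratSplit_of_roots (LinearMap.charpoly_monic _) fun μ hμ => ?_
    refine root_snd (isNumBasis_bc (AlgebraicClosure E) h) hπ' μ ?_
    rw [← bc_cas]
    change ((cas f Δ).2.baseChange (AlgebraicClosure E)).charpoly.IsRoot μ
    rwa [LinearMap.charpoly_baseChange]

end

end Pool.Agent.T9h5.NK
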