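import Pool.Agent.T9h5.NK.Rat

/-!
# Numerical bases exist; separation of the Casimir element gives the projector
-/

set_option autoImplicit false
set_option linter.unusedSectionVars false

open Module Polynomial Finset TensorProduct

namespace Pool.Agent.T9h5.NK

section

variable {E : Type*} [Field E] [CharZero E] {V₀ V₁ : Type*} [AddCommGroup V₀] [Module E V₀]
  [AddCommGroup V₁] [Module E V₁] [FiniteDimensional E V₀] [FiniteDimensional E V₁]

/-- The functional `b ↦ str (a b)` on `P`. -/
noncomputable def pair (P : Submonoid (Ops E V₀ V₁)) : Ops E V₀ V₁ →ₗ[E] (P → E) where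
  toFun a b := str E V₀ V₁ (a * b)
  map_add' a a' := by
    funext b
    change str E V₀ V₁ ((a + a') * b) = str E V₀ V₁ (a * b) + str E V₀ V₁ (a' * b)
    rw [add_mul, map_add]
  map_smul' t a := by
    funext b
    change str E V₀ V₁ ((t • a) * b) = t * str E V₀ V₁ (a * b)
    rw [smul_mul_assoc, map_smul, smul_eq_mul]

/-- **Numerical bases exist** if the supertraces of the operators in `P` are rational. -/
theorem exists_numBasis (P : Submonoid (Ops E V₀ V₁))
    (hP : ∀ a ∈ P, ∃ q : ℚ, str E V₀ V₁ a = q) :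
    ∃ (d : ℕ) (f : Fin d → Ops E V₀ V₁) (Γ Δ : Matrix (Fin d) (Fin d) ℚ), IsNumBasis P f Γ Δ := by
  classical
  let v : P → (P → E) := fun a => pair P a
  obtain ⟨κ, a, _, hsp, hli⟩ := exists_linearIndependent' E v
  have hfin : Finite κ := by
    have h1 : LinearIndependent E fun i : κ => ((a i : P) : Ops E V₀ V₁) :=
      LinearIndependent.of_comp (pair P) hli
    exact h1.finite
  have : Fintype κ := Fintype.ofFinite κ
  let σ : Fin (Fintype.card κ) ≃ κ := (Fintype.equivFin κ).symm
  let f : Fin (Fintype.card κ) → Ops E V₀ V₁ := fun i => (a (σ i) : P)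
  have hf : ∀ i, f i ∈ P := fun i => (a (σ i)).2
  have hlif : LinearIndependent E fun i => pair P (f i) := hli.comp σ σ.injective
  choose! q hq using hP
  let Γ : Matrix (Fin (Fintype.card κ)) (Fin (Fintype.card κ)) ℚ := fun i j => q (f i * f j)
  have hΓ : ∀ i j, str E V₀ V₁ (f i * f j) = (Γ i j : ℚ) := fun i j =>
    hq _ (P.mul_mem (hf i) (hf j))
  -- all elements of `P` are combinations
  have hall : ∀ g ∈ P, ∃ c : Fin (Fintype.card κ) → E, ∀ b ∈ P,
      str E V₀ V₁ (g * b) = ∑ i, c i * str E V₀ V₁ (f i * b) := by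
    intro g hg
    have h1 : v ⟨g, hg⟩ ∈ Submodule.span E (Set.range fun i => pair P (f i)) := by
      have h2 : Set.range (fun i => pair P (f i)) = Set.range (v ∘ a) := by
        ext x
        constructor
        · rintro ⟨i, rfl⟩
          exact ⟨σ i, rfl⟩
        · rintro ⟨i, rfl⟩
          exact ⟨σ.symm i, by simp [f, v]⟩
      rw [h2, hsp]
      exact Submodule.subset_span ⟨_, rfl⟩
    obtain ⟨c, hc⟩ := (Submodule.mem_span_range_iff_exists_fun E).1 h1
    refine ⟨c, fun b hb => ?_⟩
    have h3 := congrFun hc ⟨b, hb⟩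
    rw [Finset.sum_apply] at h3
    exact h3.symm
  -- the Gram matrix is invertible
  have hdet : Γ.det ≠ 0 := by
    intro h0
    have h1 : (Γ.map (algebraMap ℚ E)).det = 0 := by
      have := (algebraMap ℚ E).map_det Γ
      rw [h0, map_zero] at this
      exact this.symm
    obtain ⟨x, hx0, hx⟩ := Matrix.exists_mulVec_eq_zero_iff.2 h1
    have h2 : ∀ i, str E V₀ V₁ (f i * ∑ j, x j • f j) = 0 := by
      intro i
      have h3 := congrFun hx i
      rw [Finset.mul_sum, map_sum]
      rw [Matrix.mulVec, dotProduct] at h3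
      refine Eq.trans (Finset.sum_congr rfl fun j _ => ?_) h3
      rw [mul_smul_comm, map_smul, hΓ, smul_eq_mul, mul_comm, Matrix.map_apply]
      rfl
    have h3 : pair P (∑ j, x j • f j) = 0 := by
      funext b
      change str E V₀ V₁ ((∑ j, x j • f j) * b) = 0
      obtain ⟨c, hc⟩ := hall b b.2
      have h4 : ∀ y ∈ Submodule.span E (P : Set (Ops E V₀ V₁)),
          str E V₀ V₁ ((b : Ops E V₀ V₁) * y) = ∑ i, c i * str E V₀ V₁ (f i * y) := by
        intro y hy
        induction hy using Submodule.span_induction with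
        | mem x hx => exact hc x hx
        | zero => simp
        | add x y _ _ hx hy =>
          rw [mul_add, map_add, hx, hy, ← Finset.sum_add_distrib]
          exact Finset.sum_congr rfl fun i _ => by rw [mul_add, map_add, mul_add]
        | smul t x _ hx =>
          rw [mul_smul_comm, map_smul, hx, smul_eq_mul, Finset.mul_sum]
          refine Finset.sum_congr rfl fun i _ => ?_
          rw [mul_smul_comm, map_smul, smul_eq_mul]
          ring
      rw [str_mul_comm, h4 _ (Submodule.sum_mem _ fun j _ =>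
        Submodule.smul_mem _ _ (Submodule.subset_span (hf j)))]
      exact Finset.sum_eq_zero fun i _ => by rw [h2 i, mul_zero]
    refine hx0 (funext fun i => ?_)
    refine Fintype.linearIndependent_iff.1 hlif x ?_ i
    rw [← h3, map_sum]
    exact Finset.sum_congr rfl fun j _ => (map_smul _ _ _).symm
  have hunit : IsUnit Γ.det := isUnit_iff_ne_zero.2 hdet
  refine ⟨Fintype.card κ, f, Γ, Γ⁻¹, hf, hΓ, Matrix.nonsing_inv_mul Γ hunit, fun g hg => ?_⟩
  obtain ⟨c, hc⟩ := hall g hg
  refine ⟨fun i => ∑ j, q (g * f j) * Γ⁻¹ j i, fun b hb => ?_⟩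
  rw [hc b hb]
  refine Finset.sum_congr rfl fun i _ => ?_
  congr 1
  have h1 : ∀ j, ((q (g * f j) : ℚ) : E) = ∑ l, c l * (Γ l j : ℚ) := by
    intro j
    rw [← hq _ (P.mul_mem hg (hf j)), hc _ (hf j)]
    exact Finset.sum_congr rfl fun l _ => by rw [hΓ]
  rw [Rat.cast_sum]
  have h2 : ∀ j, ((q (g * f j) * Γ⁻¹ j i : ℚ) : E) = ∑ l, c l * ((Γ l j * Γ⁻¹ j i : ℚ) : E) := by
    intro j
    rw [Rat.cast_mul, h1, Finset.sum_mul]
    exact Finset.sum_congr rfl fun l _ => by rw [Rat.cast_mul, mul_assoc]
  rw [Finset.sum_congr rfl fun j _ => h2 j, Finset.sum_comm]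
  have h3 : ∀ l, ∑ j, c l * ((Γ l j * Γ⁻¹ j i : ℚ) : E) = if l = i then c l else 0 := by
    intro l
    rw [← Finset.mul_sum, ← Rat.cast_sum, ← Matrix.mul_apply, Matrix.mul_nonsing_inv Γ hunit,
      Matrix.one_apply]
    split_ifs <;> simp
  rw [Finset.sum_congr rfl fun l _ => h3 l, Finset.sum_ite_eq']
  simp

end

section

variable {E : Type*} [Field E] [CharZero E]

/-- A product of factors `X - q` comes from a polynomial with rational coefficients. -/
lemma RatSplit.exists_map {Q : ℚ → Prop} {p : E[X]} (h : RatSplit Q p) :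
    ∃ s : Multiset ℚ, (∀ q ∈ s, Q q) ∧
      p = ((s.map fun q : ℚ => X - C q).prod).map (algebraMap ℚ E) := by
  obtain ⟨s, hs, rfl⟩ := h
  refine ⟨s, hs, ?_⟩
  rw [Polynomial.map_multiset_prod, Multiset.map_map]
  congr 1
  refine Multiset.map_congr rfl fun q _ => ?_
  simp

/-- `RatSplit` descends along extensions of fields. -/
lemma RatSplit.of_map {Q : ℚ → Prop} {p : E[X]} {E' : Type*} [Field E'] [CharZero E']
    [Algebra E E'] (h : RatSplit Q (p.map (algebraMap E E'))) : RatSplit Q p := by
  obtain ⟨s, hs, h1⟩ := h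
  refine ⟨s, hs, Polynomial.map_injective _ (algebraMap E E').injective ?_⟩
  rw [h1, Polynomial.map_multiset_prod, Multiset.map_map]
  congr 1
  refine Multiset.map_congr rfl fun q _ => ?_
  simp

lemma isCoprime_aux {a : ℚ} (ha : 0 < a) (t : Multiset ℚ) (ht : ∀ q ∈ t, q < 0) :
    IsCoprime (X - C a) (t.map fun q : ℚ => X - C q).prod := by
  induction t using Multiset.induction_on with
  | empty =>
    rw [Multiset.map_zero, Multiset.prod_zero]
    exact isCoprime_one_right
  | cons b t ih =>
    rw [Multiset.map_cons, Multiset.prod_cons]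
    refine IsCoprime.mul_right ?_ (ih fun q hq => ht q (Multiset.mem_cons_of_mem hq))
    have h2 : b < 0 := ht b (Multiset.mem_cons_self _ _)
    have h3 : a - b ≠ 0 := by
      have h4 : 0 < a - b := by linarith
      exact h4.ne'
    exact Polynomial.isCoprime_X_sub_C_of_isUnit_sub (isUnit_iff_ne_zero.2 h3)

lemma isCoprime_prod (s t : Multiset ℚ) (hs : ∀ q ∈ s, 0 < q) (ht : ∀ q ∈ t, q < 0) :
    IsCoprime (s.map fun q : ℚ => X - C q).prod (t.map fun q : ℚ => X - C q).prod := by
  induction s using Multiset.induction_on with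
  | empty =>
    rw [Multiset.map_zero, Multiset.prod_zero]
    exact isCoprime_one_left
  | cons a s ih =>
    rw [Multiset.map_cons, Multiset.prod_cons]
    exact IsCoprime.mul_left (isCoprime_aux (hs a (Multiset.mem_cons_self _ _)) t ht)
      (ih fun q hq => hs q (Multiset.mem_cons_of_mem hq))

end

end Pool.Agent.T9h5.NK
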