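import Pool.Agent.T9h5.NK.Lin

/-!
# The Casimir element of an algebra of operators with rational supertraces
-/

set_option autoImplicit false
set_option linter.unusedSectionVars false

open Module Polynomial Finset

namespace Pool.Agent.T9h5.NK

section

variable (E : Type*) [Field E] (V₀ V₁ : Type*) [AddCommGroup V₀] [Module E V₀]
  [AddCommGroup V₁] [Module E V₁]

/-- The even operators on the super vector space with even part `V₀` and odd part `V₁`. -/
abbrev Ops := End E V₀ × End E V₁

/-- The supertrace. -/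
noncomputable def str : Ops E V₀ V₁ →ₗ[E] E :=
  (LinearMap.trace E V₀).comp (LinearMap.fst E _ _) -
    (LinearMap.trace E V₁).comp (LinearMap.snd E _ _)

end

section

variable {E : Type*} [Field E] {V₀ V₁ : Type*} [AddCommGroup V₀] [Module E V₀]
  [AddCommGroup V₁] [Module E V₁]

lemma str_apply (a : Ops E V₀ V₁) :
    str E V₀ V₁ a = LinearMap.trace E V₀ a.1 - LinearMap.trace E V₁ a.2 := rfl

lemma str_mul_comm (a b : Ops E V₀ V₁) : str E V₀ V₁ (a * b) = str E V₀ V₁ (b * a) := by
  rw [str_apply, str_apply, Prod.fst_mul, Prod.snd_mul, Prod.fst_mul, Prod.snd_mul,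
    LinearMap.trace_mul_comm, LinearMap.trace_mul_comm E a.2]

/-- The operators `f i` in `P` are a basis of the rational span of `P` modulo numerical equivalence:
their matrix `Γ` of supertraces is rational, with inverse `Δ`, and each operator in `P` is numerically
equivalent to a rational combination of them. -/
structure IsNumBasis [CharZero E] (P : Submonoid (Ops E V₀ V₁)) {d : ℕ} (f : Fin d → Ops E V₀ V₁)
    (Γ Δ : Matrix (Fin d) (Fin d) ℚ) : Prop where
  mem : ∀ i, f i ∈ P
  gram : ∀ i j, str E V₀ V₁ (f i * f j) = (Γ i j : ℚ)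
  inv : Δ * Γ = 1
  span : ∀ a ∈ P, ∃ c : Fin d → ℚ, ∀ b ∈ P,
    str E V₀ V₁ (a * b) = ∑ i, (c i : E) * str E V₀ V₁ (f i * b)

/-- The Casimir element. -/
noncomputable def cas [CharZero E] {d : ℕ} (f : Fin d → Ops E V₀ V₁) (Δ : Matrix (Fin d) (Fin d) ℚ) :
    Ops E V₀ V₁ :=
  ∑ i, ∑ j, ((Δ i j : ℚ) : E) • (f i * f j)

/-- Products of elements of the span are in the span. -/
lemma span_mul (P : Submonoid (Ops E V₀ V₁)) {a b : Ops E V₀ V₁}
    (ha : a ∈ Submodule.span E (P : Set (Ops E V₀ V₁)))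
    (hb : b ∈ Submodule.span E (P : Set (Ops E V₀ V₁))) :
    a * b ∈ Submodule.span E (P : Set (Ops E V₀ V₁)) := by
  have h := Submodule.mul_mem_mul ha hb
  rw [Submodule.span_mul_span] at h
  refine Submodule.span_mono ?_ h
  rintro _ ⟨x, hx, y, hy, rfl⟩
  exact P.mul_mem hx hy

section core

variable [CharZero E] {P : Submonoid (Ops E V₀ V₁)} {d : ℕ} {f : Fin d → Ops E V₀ V₁}
  {Γ Δ : Matrix (Fin d) (Fin d) ℚ}

/-- The dual basis. -/
noncomputable def dualB (f : Fin d → Ops E V₀ V₁) (Δ : Matrix (Fin d) (Fin d) ℚ) (i : Fin d) :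
    Ops E V₀ V₁ :=
  ∑ j, ((Δ i j : ℚ) : E) • f j

lemma cas_eq (f : Fin d → Ops E V₀ V₁) (Δ : Matrix (Fin d) (Fin d) ℚ) :
    cas f Δ = ∑ i, f i * dualB f Δ i := by
  unfold cas dualB
  refine Finset.sum_congr rfl fun i _ => ?_
  rw [Finset.mul_sum]
  exact Finset.sum_congr rfl fun j _ => by rw [mul_smul_comm]

lemma str_dual (h : IsNumBasis P f Γ Δ) (i j : Fin d) :
    str E V₀ V₁ (dualB f Δ i * f j) = if i = j then 1 else 0 := by
  unfold dualB
  rw [Finset.sum_mul, map_sum]
  have h1 : ∀ l, str E V₀ V₁ (((Δ i l : ℚ) : E) • f l * f j) = ((Δ i l * Γ l j : ℚ) : E) := by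
    intro l
    rw [smul_mul_assoc, map_smul, h.gram, smul_eq_mul, Rat.cast_mul]
  rw [Finset.sum_congr rfl fun l _ => h1 l, ← Rat.cast_sum, ← Matrix.mul_apply, h.inv,
    Matrix.one_apply]
  split_ifs <;> simp

lemma dual_mem (h : IsNumBasis P f Γ Δ) (i : Fin d) :
    dualB f Δ i ∈ Submodule.span E (P : Set (Ops E V₀ V₁)) :=
  Submodule.sum_mem _ fun j _ => Submodule.smul_mem _ _ (Submodule.subset_span (h.mem j))

lemma span_left (h : IsNumBasis P f Γ Δ) {a : Ops E V₀ V₁}
    (ha : a ∈ Submodule.span E (P : Set (Ops E V₀ V₁))) : ∃ c : Fin d → E, ∀ b ∈ P,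
      str E V₀ V₁ (a * b) = ∑ i, c i * str E V₀ V₁ (f i * b) := by
  induction ha using Submodule.span_induction with
  | mem x hx =>
    obtain ⟨c, hc⟩ := h.span x hx
    exact ⟨fun i => (c i : E), hc⟩
  | zero => exact ⟨0, fun b _ => by simp⟩
  | add x y _ _ hx hy =>
    obtain ⟨c, hc⟩ := hx
    obtain ⟨c', hc'⟩ := hy
    refine ⟨c + c', fun b hb => ?_⟩
    rw [add_mul, map_add, hc b hb, hc' b hb, ← Finset.sum_add_distrib]
    exact Finset.sum_congr rfl fun i _ => by rw [Pi.add_apply, add_mul]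
  | smul t x _ hx =>
    obtain ⟨c, hc⟩ := hx
    refine ⟨t • c, fun b hb => ?_⟩
    rw [smul_mul_assoc, map_smul, hc b hb, smul_eq_mul, Finset.mul_sum]
    exact Finset.sum_congr rfl fun i _ => by rw [Pi.smul_apply, smul_eq_mul, mul_assoc]

/-- The completeness relation. -/
lemma complete (h : IsNumBasis P f Γ Δ) {a b : Ops E V₀ V₁}
    (ha : a ∈ Submodule.span E (P : Set (Ops E V₀ V₁)))
    (hb : b ∈ Submodule.span E (P : Set (Ops E V₀ V₁))) :
    str E V₀ V₁ (a * b) = ∑ i, str E V₀ V₁ (dualB f Δ i * a) * str E V₀ V₁ (f i * b) := by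
  obtain ⟨c, hc⟩ := span_left h ha
  have hc' : ∀ b ∈ Submodule.span E (P : Set (Ops E V₀ V₁)),
      str E V₀ V₁ (a * b) = ∑ i, c i * str E V₀ V₁ (f i * b) := by
    intro b hb
    induction hb using Submodule.span_induction with
    | mem x hx => exact hc x hx
    | zero => simp
    | add x y _ _ hx hy =>
      rw [mul_add, map_add, hx, hy, ← Finset.sum_add_distrib]
      exact Finset.sum_congr rfl fun i _ => by rw [mul_add, map_add, mul_add]
    | smul t x _ hx =>
      rw [mul_smul_comm, map_smul, hx, smul_eq_mul, Finset.mul_sum]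
      refine Finset.sum_congr rfl fun i _ => ?_
      rw [mul_smul_comm, map_smul, smul_eq_mul]
      ring
  rw [hc' b hb]
  refine Finset.sum_congr rfl fun i _ => ?_
  congr 1
  rw [str_mul_comm, hc' _ (dual_mem h i)]
  have h1 : ∀ j, c j * str E V₀ V₁ (f j * dualB f Δ i) = if i = j then c j else 0 := by
    intro j
    rw [str_mul_comm, str_dual h]
    split_ifs <;> simp
  rw [Finset.sum_congr rfl fun j _ => h1 j, Finset.sum_ite_eq]
  simp

/-- **The supertrace of the Casimir element against an idempotent** of nonzero supertrace is a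
positive integer. -/
theorem str_cas (h : IsNumBasis P f Γ Δ) {e : Ops E V₀ V₁}
    (he : e ∈ Submodule.span E (P : Set (Ops E V₀ V₁))) (hee : e * e = e)
    (hne : str E V₀ V₁ e ≠ 0) : ∃ r : ℕ, 0 < r ∧ str E V₀ V₁ (e * cas f Δ) = r := by
  have h1P : (1 : Ops E V₀ V₁) ∈ Submodule.span E (P : Set (Ops E V₀ V₁)) :=
    Submodule.subset_span P.one_mem
  have hf : ∀ j, f j ∈ Submodule.span E (P : Set (Ops E V₀ V₁)) := fun j =>
    Submodule.subset_span (h.mem j)
  let A : Matrix (Fin d) (Fin d) E := fun i j => str E V₀ V₁ (dualB f Δ i * (e * f j))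
  have hA : A * A = A := by
    ext i j
    rw [Matrix.mul_apply]
    have h1 := complete h (span_mul P he (hf j)) (span_mul P (dual_mem h i) he)
    have h2 : ∀ l, str E V₀ V₁ (f l * (dualB f Δ i * e)) = A i l := by
      intro l
      rw [str_mul_comm, mul_assoc]
    have h3 : str E V₀ V₁ (e * f j * (dualB f Δ i * e)) = A i j := by
      rw [str_mul_comm, mul_assoc, ← mul_assoc e e, hee]
    rw [h3] at h1
    rw [h1]
    refine Finset.sum_congr rfl fun l _ => ?_
    rw [h2 l, mul_comm]
  have htr : str E V₀ V₁ (e * cas f Δ) = A.trace := by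
    rw [cas_eq, Finset.mul_sum, map_sum, Matrix.trace]
    refine Finset.sum_congr rfl fun i _ => ?_
    rw [Matrix.diag_apply, ← mul_assoc, str_mul_comm]
  have hA0 : A ≠ 0 := by
    intro h0
    have h1 : ∀ i, str E V₀ V₁ (dualB f Δ i * e) = 0 := by
      intro i
      have h2 := complete h h1P (span_mul P (dual_mem h i) he)
      rw [one_mul] at h2
      rw [h2]
      refine Finset.sum_eq_zero fun l _ => ?_
      have h3 : str E V₀ V₁ (f l * (dualB f Δ i * e)) = A i l := by
        rw [str_mul_comm, mul_assoc]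
      rw [h3, h0, Matrix.zero_apply, mul_zero]
    refine hne ?_
    have h2 := complete h he h1P
    rw [mul_one] at h2
    rw [h2]
    exact Finset.sum_eq_zero fun i _ => by rw [h1 i, zero_mul]
  let φ : End E (Fin d → E) := Matrix.toLin' A
  have hφ : φ * φ = φ := by
    have : Matrix.toLin' (A * A) = φ * φ := Matrix.toLin'_mul A A
    rw [← this, hA]
  have hφ0 : φ ≠ 0 := by
    intro h0
    exact hA0 ((LinearEquiv.map_eq_zero_iff Matrix.toLin').1 h0)
  refine ⟨finrank E (LinearMap.range φ), rank_pos hφ0, ?_⟩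
  rw [htr, ← Matrix.trace_toLin'_eq]
  exact trace_idem hφ

end core

section roots

variable [CharZero E] [FiniteDimensional E V₀] [FiniteDimensional E V₁]
  {P : Submonoid (Ops E V₀ V₁)} {d : ℕ} {f : Fin d → Ops E V₀ V₁}
  {Γ Δ : Matrix (Fin d) (Fin d) ℚ}

lemma cas_mem (h : IsNumBasis P f Γ Δ) :
    cas f Δ ∈ Submodule.span E (P : Set (Ops E V₀ V₁)) :=
  Submodule.sum_mem _ fun i _ => Submodule.sum_mem _ fun j _ =>
    Submodule.smul_mem _ _ (Submodule.subset_span (P.mul_mem (h.mem i) (h.mem j)))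

lemma aeval_mem {z : Ops E V₀ V₁} (hz : z ∈ Submodule.span E (P : Set (Ops E V₀ V₁)))
    (p : E[X]) : aeval z p ∈ Submodule.span E (P : Set (Ops E V₀ V₁)) := by
  induction p using Polynomial.induction_on' with
  | add p q hp hq =>
    rw [map_add]
    exact Submodule.add_mem _ hp hq
  | monomial n a =>
    rw [aeval_monomial, ← Algebra.smul_def]
    refine Submodule.smul_mem _ _ ?_
    induction n with
    | zero => rw [pow_zero]; exact Submodule.subset_span P.one_mem
    | succ n ih => rw [pow_succ]; exact span_mul P ih hz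

lemma aeval_fst (z : Ops E V₀ V₁) (p : E[X]) : (aeval z p).1 = aeval z.1 p :=
  (Polynomial.aeval_algHom_apply (AlgHom.fst E (End E V₀) (End E V₁)) z p).symm

lemma aeval_snd (z : Ops E V₀ V₁) (p : E[X]) : (aeval z p).2 = aeval z.2 p :=
  (Polynomial.aeval_algHom_apply (AlgHom.snd E (End E V₀) (End E V₁)) z p).symm

/-- If the projector to the even part is in the span, the eigenvalues of the Casimir element on the
even part are positive rational numbers. -/
theorem root_fst (h : IsNumBasis P f Γ Δ)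
    (hπ : ((1, 0) : Ops E V₀ V₁) ∈ Submodule.span E (P : Set (Ops E V₀ V₁))) (μ : E)
    (hμ : (cas f Δ).1.charpoly.IsRoot μ) : ∃ q : ℚ, 0 < q ∧ (q : E) = μ := by
  obtain ⟨p, hp, hp0, htr⟩ := spectral (cas f Δ).1 μ hμ
  set z := cas f Δ with hz
  let e : Ops E V₀ V₁ := (1, 0) * aeval z p
  have he1 : e = (aeval z.1 p, 0) := by
    refine Prod.ext ?_ ?_
    · change 1 * (aeval z p).1 = _
      rw [one_mul, aeval_fst]
    · change 0 * (aeval z p).2 = _
      rw [zero_mul]
  have he : e ∈ Submodule.span E (P : Set (Ops E V₀ V₁)) :=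
    span_mul P hπ (aeval_mem (cas_mem h) p)
  have hee : e * e = e := by
    rw [he1]
    exact Prod.ext hp (mul_zero _)
  have hs : str E V₀ V₁ e = (finrank E (LinearMap.range (aeval z.1 p)) : E) := by
    rw [he1, str_apply, trace_idem hp, map_zero, sub_zero]
  have hpos : 0 < finrank E (LinearMap.range (aeval z.1 p)) := rank_pos hp0
  obtain ⟨r, hr, hr'⟩ := str_cas h he hee (by
    rw [hs]
    exact_mod_cast hpos.ne')
  have h1 : str E V₀ V₁ (e * z) = μ * (finrank E (LinearMap.range (aeval z.1 p)) : E) := by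
    rw [str_mul_comm, he1, str_apply]
    change LinearMap.trace E V₀ (z.1 * aeval z.1 p) - LinearMap.trace E V₁ (z.2 * 0) = _
    rw [htr, mul_zero, map_zero, sub_zero, trace_idem hp]
  refine ⟨(r : ℚ) / (finrank E (LinearMap.range (aeval z.1 p)) : ℚ), by positivity, ?_⟩
  rw [← hz] at hr'
  rw [h1] at hr'
  have hne : (finrank E (LinearMap.range (aeval z.1 p)) : E) ≠ 0 := by exact_mod_cast hpos.ne'
  rw [Rat.cast_div, Rat.cast_natCast, Rat.cast_natCast, ← hr', mul_div_assoc, div_self hne, mul_one]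

/-- If the projector to the even part is in the span, the eigenvalues of the Casimir element on the
odd part are negative rational numbers. -/
theorem root_snd (h : IsNumBasis P f Γ Δ)
    (hπ : ((1, 0) : Ops E V₀ V₁) ∈ Submodule.span E (P : Set (Ops E V₀ V₁))) (μ : E)
    (hμ : (cas f Δ).2.charpoly.IsRoot μ) : ∃ q : ℚ, q < 0 ∧ (q : E) = μ := by
  obtain ⟨p, hp, hp0, htr⟩ := spectral (cas f Δ).2 μ hμ
  set z := cas f Δ with hz
  have hπ' : ((0, 1) : Ops E V₀ V₁) ∈ Submodule.span E (P : Set (Ops E V₀ V₁)) := by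
    have h1 : ((0, 1) : Ops E V₀ V₁) = 1 - (1, 0) := by
      refine Prod.ext ?_ ?_
      · exact (sub_self _).symm
      · exact (sub_zero _).symm
    rw [h1]
    exact Submodule.sub_mem _ (Submodule.subset_span P.one_mem) hπ
  let e : Ops E V₀ V₁ := (0, 1) * aeval z p
  have he1 : e = (0, aeval z.2 p) := by
    refine Prod.ext ?_ ?_
    · change 0 * (aeval z p).1 = _
      rw [zero_mul]
    · change 1 * (aeval z p).2 = _
      rw [one_mul, aeval_snd]
  have he : e ∈ Submodule.span E (P : Set (Ops E V₀ V₁)) :=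
    span_mul P hπ' (aeval_mem (cas_mem h) p)
  have hee : e * e = e := by
    rw [he1]
    exact Prod.ext (mul_zero _) hp
  have hs : str E V₀ V₁ e = -(finrank E (LinearMap.range (aeval z.2 p)) : E) := by
    rw [he1, str_apply, trace_idem hp, map_zero, zero_sub]
  have hpos : 0 < finrank E (LinearMap.range (aeval z.2 p)) := rank_pos hp0
  obtain ⟨r, hr, hr'⟩ := str_cas h he hee (by
    rw [hs, neg_ne_zero]
    exact_mod_cast hpos.ne')
  have h1 : str E V₀ V₁ (e * z) = -(μ * (finrank E (LinearMap.range (aeval z.2 p)) : E)) := by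
    rw [str_mul_comm, he1, str_apply]
    change LinearMap.trace E V₀ (z.1 * 0) - LinearMap.trace E V₁ (z.2 * aeval z.2 p) = _
    rw [htr, mul_zero, map_zero, zero_sub, trace_idem hp]
  refine ⟨-((r : ℚ) / (finrank E (LinearMap.range (aeval z.2 p)) : ℚ)), by
    have : (0 : ℚ) < (r : ℚ) / (finrank E (LinearMap.range (aeval z.2 p)) : ℚ) := by positivity
    linarith, ?_⟩
  rw [← hz] at hr'
  rw [h1] at hr'
  have hne : (finrank E (LinearMap.range (aeval z.2 p)) : E) ≠ 0 := by exact_mod_cast hpos.ne'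
  rw [Rat.cast_neg, Rat.cast_div, Rat.cast_natCast, Rat.cast_natCast, ← hr', neg_div, neg_neg,
    mul_div_assoc, div_self hne, mul_one]

end roots

end

end Pool.Agent.T9h5.NK
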