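import Mathlib

/-!
# Kunneth projectors, Euler characteristics and numerical bases

`C` is the category of the saturated dg categories over the field `k` (of characteristic zero); the
morphisms `𝒜 ⟶ ℬ` are the elements of `K_0 (𝒜ᵒᵖ ⊗ ℬ)`. The functors `HP 0` and `HP 1` are the even and
the odd part of periodic cyclic homology.
-/

set_option autoImplicit false

open CategoryTheory Module Polynomial TensorProduct

namespace Pool.Agent.T9h5.NK

universe v w x z

variable {k : Type x} [Field k] {C : Type w} [Category.{v} C]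

/-- The operator on `HP i M` given by the endomorphism `f` (a noncommutative correspondence). -/
abbrev act (HP : ZMod 2 → C ⥤ ModuleCat.{z} k) {M : C} (i : ZMod 2) (f : M ⟶ M) :
    Module.End k ((HP i).obj M) :=
  ((HP i).map f).hom

/-- The supertrace of an endomorphism on periodic cyclic homology. It is the Euler characteristic of
the Hochschild homology of `𝒜` with coefficients in the bimodule, so it is an integer. -/
noncomputable def euler (HP : ZMod 2 → C ⥤ ModuleCat.{z} k) {M : C} (f : M ⟶ M) : k :=
  LinearMap.trace k _ (act HP 0 f) - LinearMap.trace k _ (act HP 1 f)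

/-- The Kunneth projector to the part of degree `e` (the even part for `e = 0`, the odd part for
`e = 1`) is algebraic with coefficients in the field `F`, where `k` and `F` are contained in the
field `Ω`: it is an `F`-linear combination of the operators of noncommutative correspondences, as an
operator on `HP ⊗ Ω`. If `F` contains `k` one takes `Ω = F`, if `k` contains `F` one takes `Ω = k`. -/
def IsAlgebraic (HP : ZMod 2 → C ⥤ ModuleCat.{z} k) (Ω : Type*) [Field Ω] [Algebra k Ω]
    {F : Type*} [Field F] (ι : F →+* Ω) (M : C) (e : ZMod 2) : Prop :=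
  ∃ (n : ℕ) (c : Fin n → F) (f : Fin n → (M ⟶ M)), ∀ i : ZMod 2,
    ∑ j, ι (c j) • (act HP i (f j)).baseChange Ω = if i = e then LinearMap.id else 0

variable [CharZero k]

/-- The Kunneth projector to the part of degree `e` is a combination with rational coefficients of
the operators of noncommutative correspondences. -/
def IsRational (HP : ZMod 2 → C ⥤ ModuleCat.{z} k) (M : C) (e : ZMod 2) : Prop :=
  ∃ (n : ℕ) (c : Fin n → ℚ) (f : Fin n → (M ⟶ M)), ∀ i : ZMod 2,
    ∑ j, (c j : k) • act HP i (f j) = if i = e then LinearMap.id else 0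

/-- The correspondences `f 0, ..., f (d - 1)` are a basis of `K_0 (𝒜ᵒᵖ ⊗ 𝒜) ⊗ ℚ` modulo numerical
equivalence, with the matrix `Γ` of Euler characteristics, and `Δ` is the inverse of `Γ`. -/
structure IsNumericalBasis (HP : ZMod 2 → C ⥤ ModuleCat.{z} k) (M : C) {d : ℕ}
    (f : Fin d → (M ⟶ M)) (Γ Δ : Matrix (Fin d) (Fin d) ℚ) : Prop where
  gram : ∀ i j, euler HP (f i ≫ f j) = (Γ i j : ℚ)
  inv : Δ * Γ = 1
  span : ∀ g : M ⟶ M, ∃ c : Fin d → ℚ, ∀ h : M ⟶ M,
    euler HP (g ≫ h) = ∑ i, (c i : k) * euler HP (f i ≫ h)

/-- The operator on `HP i M` of the Casimir correspondence: the sum of the compositions of the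
elements of a numerical basis and the elements of the dual basis. -/
noncomputable def casimir (HP : ZMod 2 → C ⥤ ModuleCat.{z} k) (M : C) {d : ℕ}
    (f : Fin d → (M ⟶ M)) (Δ : Matrix (Fin d) (Fin d) ℚ) (i : ZMod 2) :
    Module.End k ((HP i).obj M) :=
  ∑ a, ∑ b, ((Δ a b : ℚ) : k) • act HP i (f b ≫ f a)

/-- The operators `z i` have rational eigenvalues only, positive ones for `i = 0` and negative ones
for `i = 1`: the characteristic polynomials are products of factors `X - q` with such `q`. -/
def SignSeparated {HP : ZMod 2 → C ⥤ ModuleCat.{z} k} {M : C}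
    [∀ i, FiniteDimensional k ((HP i).obj M)]
    (z : ∀ i : ZMod 2, Module.End k ((HP i).obj M)) : Prop :=
  (∃ s : Multiset ℚ, (∀ q ∈ s, 0 < q) ∧
    (z 0).charpoly = (s.map fun q : ℚ => X - Polynomial.C (q : k)).prod) ∧
  ∃ s : Multiset ℚ, (∀ q ∈ s, q < 0) ∧
    (z 1).charpoly = (s.map fun q : ℚ => X - Polynomial.C (q : k)).prod

/-- The Kunneth projector to the part of degree `e` is a rational polynomial in `z`. -/
def IsPolynomialIn {HP : ZMod 2 → C ⥤ ModuleCat.{z} k} {M : C}
    (z : ∀ i : ZMod 2, Module.End k ((HP i).obj M)) (e : ZMod 2) : Prop :=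
  ∃ p : ℚ[X], ∀ i : ZMod 2,
    aeval (z i) (p.map (algebraMap ℚ k)) = if i = e then LinearMap.id else 0

end Pool.Agent.T9h5.NK
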