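import Mathlib

/-!
# Spectral projections and traces
-/

set_option autoImplicit false

open Module Polynomial

namespace Pool.Agent.T9h5.NK

section

variable {E V : Type*} [Field E] [AddCommGroup V] [Module E V] [FiniteDimensional E V]

/-- The trace of an idempotent is its rank. -/
lemma trace_idem {e : End E V} (he : e * e = e) :
    LinearMap.trace E V e = (finrank E (LinearMap.range e) : E) :=
  (LinearMap.IsIdempotentElem.isProj_range e he).trace

/-- The rank of a nonzero operator is positive. -/
lemma rank_pos {e : End E V} (he : e ≠ 0) : 0 < finrank E (LinearMap.range e) := by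
  rw [Nat.pos_iff_ne_zero]
  intro h
  exact he (LinearMap.range_eq_bot.1 (Submodule.finrank_eq_zero.1 h))

/-- The projection to a generalized eigenspace as a polynomial in the operator. -/
lemma spectral (φ : End E V) (μ : E) (h : φ.charpoly.IsRoot μ) :
    ∃ p : E[X], aeval φ p * aeval φ p = aeval φ p ∧ aeval φ p ≠ 0 ∧
      LinearMap.trace E V (φ * aeval φ p) = μ * LinearMap.trace E V (aeval φ p) := by
  have hne : φ.charpoly ≠ 0 := φ.charpoly_monic.ne_zero
  obtain ⟨q, hq, hnd⟩ := Polynomial.exists_eq_pow_rootMultiplicity_mul_and_not_dvd φ.charpoly hne μ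
  set m := rootMultiplicity μ φ.charpoly with hm
  have hmpos : 0 < m := (Polynomial.rootMultiplicity_pos hne).2 h
  clear_value m
  have hcop : IsCoprime ((X - C μ) ^ m) q := by
    refine IsCoprime.pow_left ?_
    exact ((Polynomial.irreducible_X_sub_C μ).coprime_iff_not_dvd).2 hnd
  obtain ⟨a, b, hab⟩ := hcop
  have hzero : aeval φ ((X - C μ) ^ m * q) = 0 := by
    rw [← hq]
    exact LinearMap.aeval_self_charpoly φ
  have hidem : aeval φ (b * q) * aeval φ (b * q) = aeval φ (b * q) := by
    have h1 : (b * q) * (b * q) = b * q - (a * b) * ((X - C μ) ^ m * q) := by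
      linear_combination (b * q) * hab
    rw [← map_mul, h1, map_sub, map_mul _ (a * b), hzero, mul_zero, sub_zero]
  obtain ⟨v, hv⟩ := ((Module.End.hasEigenvalue_iff_isRoot_charpoly φ μ).2 h).exists_hasEigenvector
  refine ⟨b * q, hidem, ?_, ?_⟩
  · intro h0
    have h1 : (aeval φ (b * q)) v = (b * q).eval μ • v := Module.End.aeval_apply_of_hasEigenvector hv
    have h2 : (b * q).eval μ = 1 := by
      have := congrArg (Polynomial.eval μ) hab
      simpa [zero_pow hmpos.ne'] using this
    rw [h0, h2, one_smul] at h1
    exact hv.2 h1.symm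
  · have hcomm : Commute (φ - algebraMap E (End E V) μ) (aeval φ (b * q)) := by
      have h1 : φ - algebraMap E (End E V) μ = aeval φ (X - C μ) := by simp
      rw [h1]
      exact (Commute.all (X - C μ) (b * q)).map (aeval φ)
    have hnil : IsNilpotent ((φ - algebraMap E (End E V) μ) * aeval φ (b * q)) := by
      refine ⟨m, ?_⟩
      rw [hcomm.mul_pow]
      have h1 : (φ - algebraMap E (End E V) μ) ^ m = aeval φ ((X - C μ) ^ m) := by simp
      rw [h1, ← map_pow, ← map_mul]
      have h2 : (X - C μ) ^ m * (b * q) ^ m = (b ^ m * q ^ (m - 1)) * ((X - C μ) ^ m * q) := by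
        obtain ⟨n, rfl⟩ : ∃ n, m = n + 1 := ⟨m - 1, by omega⟩
        rw [Nat.add_sub_cancel]
        ring
      rw [h2, map_mul, hzero, mul_zero]
    have htr := (LinearMap.isNilpotent_trace_of_isNilpotent hnil).eq_zero
    have h3 : (φ - algebraMap E (End E V) μ) * aeval φ (b * q) =
        φ * aeval φ (b * q) - μ • aeval φ (b * q) := by
      rw [sub_mul, ← Algebra.smul_def]
    rw [h3, map_sub, map_smul, smul_eq_mul] at htr
    exact sub_eq_zero.1 htr

end

end Pool.Agent.T9h5.NK
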