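import Pool.Agent.T9h5.NK.Defs
import Pool.Agent.T9h5.NK.Bas

/-!
# The coefficient field of the noncommutative Kunneth conjecture
-/

set_option autoImplicit false
set_option linter.unusedSectionVars false

open CategoryTheory Module Polynomial TensorProduct Finset

namespace Pool.Agent.T9h5.NK

universe v w x z

lemma swap_mem {E : Type*} [Field E] {V₀ V₁ : Type*} [AddCommGroup V₀] [Module E V₀]
    [AddCommGroup V₁] [Module E V₁] {P : Submonoid (Ops E V₀ V₁)}
    (h : ((0, 1) : Ops E V₀ V₁) ∈ Submodule.span E (P : Set (Ops E V₀ V₁))) :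
    ((1, 0) : Ops E V₀ V₁) ∈ Submodule.span E (P : Set (Ops E V₀ V₁)) := by
  have h1 : ((1, 0) : Ops E V₀ V₁) = 1 - (0, 1) := by
    refine Prod.ext ?_ ?_
    · exact (sub_zero _).symm
    · exact (sub_self _).symm
  rw [h1]
  exact Submodule.sub_mem _ (Submodule.subset_span P.one_mem) h

section

variable {k : Type x} [Field k] {C : Type w} [Category.{v} C]
  (HP : ZMod 2 → C ⥤ ModuleCat.{z} k) (M : C)

/-- The operators of an endomorphism on the even and the odd part. -/
noncomputable def rho (f : M ⟶ M) : Ops k ((HP 0).obj M) ((HP 1).obj M) :=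
  (act HP 0 f, act HP 1 f)

lemma rho_id : rho HP M (𝟙 M) = 1 := by
  unfold rho act
  rw [CategoryTheory.Functor.map_id, CategoryTheory.Functor.map_id]
  rfl

lemma rho_comp (f g : M ⟶ M) : rho HP M (f ≫ g) = rho HP M g * rho HP M f := by
  unfold rho act
  rw [CategoryTheory.Functor.map_comp, CategoryTheory.Functor.map_comp]
  rfl

/-- The monoid of the operators given by endomorphisms. -/
noncomputable def opMonoid : Submonoid (Ops k ((HP 0).obj M) ((HP 1).obj M)) where
  carrier := Set.range (rho HP M)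
  one_mem' := ⟨𝟙 M, rho_id HP M⟩
  mul_mem' := by
    rintro _ _ ⟨f, rfl⟩ ⟨g, rfl⟩
    exact ⟨g ≫ f, rho_comp HP M g f⟩

lemma mem_opMonoid {a : Ops k ((HP 0).obj M) ((HP 1).obj M)} :
    a ∈ opMonoid HP M ↔ ∃ f, rho HP M f = a := Iff.rfl

lemma euler_eq (f : M ⟶ M) : euler HP f = str k _ _ (rho HP M f) := rfl

end

section

variable {k : Type x} [Field k] [CharZero k] {C : Type w} [Category.{v} C]
  (HP : ZMod 2 → C ⥤ ModuleCat.{z} k) (M : C)

lemma isNumBasis_of {d : ℕ} {f : Fin d → (M ⟶ M)} {Γ Δ : Matrix (Fin d) (Fin d) ℚ}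
    (h : IsNumericalBasis HP M f Γ Δ) :
    IsNumBasis (opMonoid HP M) (fun i => rho HP M (f i)) Γ Δ where
  mem i := ⟨f i, rfl⟩
  gram i j := by rw [str_mul_comm, ← rho_comp, ← euler_eq, h.gram]
  inv := h.inv
  span := by
    rintro _ ⟨g, rfl⟩
    obtain ⟨c, hc⟩ := h.span g
    refine ⟨c, ?_⟩
    rintro _ ⟨g', rfl⟩
    rw [str_mul_comm, ← rho_comp, ← euler_eq, hc]
    refine Finset.sum_congr rfl fun i _ => ?_
    rw [euler_eq, rho_comp, str_mul_comm]

lemma of_isNumBasis {d : ℕ} {f : Fin d → (M ⟶ M)} {Γ Δ : Matrix (Fin d) (Fin d) ℚ}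
    (h : IsNumBasis (opMonoid HP M) (fun i => rho HP M (f i)) Γ Δ) :
    IsNumericalBasis HP M f Γ Δ where
  gram i j := by rw [euler_eq, rho_comp, str_mul_comm, h.gram]
  inv := h.inv
  span g := by
    obtain ⟨c, hc⟩ := h.span _ ⟨g, rfl⟩
    refine ⟨c, fun g' => ?_⟩
    rw [euler_eq, rho_comp, str_mul_comm, hc _ ⟨g', rfl⟩]
    refine Finset.sum_congr rfl fun i _ => ?_
    rw [euler_eq, rho_comp, str_mul_comm]

lemma casimir_eq {d : ℕ} (f : Fin d → (M ⟶ M)) (Δ : Matrix (Fin d) (Fin d) ℚ) :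
    cas (fun i => rho HP M (f i)) Δ = (casimir HP M f Δ 0, casimir HP M f Δ 1) := by
  have h1 : ∀ a b, rho HP M (f a) * rho HP M (f b) = rho HP M (f b ≫ f a) := fun a b =>
    (rho_comp HP M _ _).symm
  unfold cas casimir
  refine Prod.ext ?_ ?_
  · rw [Prod.fst_sum]
    refine Finset.sum_congr rfl fun a _ => ?_
    rw [Prod.fst_sum]
    refine Finset.sum_congr rfl fun b _ => ?_
    rw [h1]
    rfl
  · rw [Prod.snd_sum]
    refine Finset.sum_congr rfl fun a _ => ?_
    rw [Prod.snd_sum]
    refine Finset.sum_congr rfl fun b _ => ?_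
    rw [h1]
    rfl

/-- The projector to the part of degree `e` as an operator. -/
noncomputable def proj (e : ZMod 2) : Ops k ((HP 0).obj M) ((HP 1).obj M) :=
  (if (0 : ZMod 2) = e then 1 else 0, if (1 : ZMod 2) = e then 1 else 0)

lemma two_cases (e : ZMod 2) : e = 0 ∨ e = 1 := by
  revert e
  decide

lemma proj_zero : proj HP M 0 = (1, 0) := by
  unfold proj
  rw [if_pos rfl, if_neg (by decide)]

lemma proj_one : proj HP M 1 = (0, 1) := by
  unfold proj
  rw [if_pos rfl, if_neg (by decide)]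

lemma one_sub_proj : (1 : Ops k ((HP 0).obj M) ((HP 1).obj M)) - (1, 0) = (0, 1) :=
  Prod.ext (sub_self _) (sub_zero _)

lemma one_sub_proj' : (1 : Ops k ((HP 0).obj M) ((HP 1).obj M)) - (0, 1) = (1, 0) :=
  Prod.ext (sub_zero _) (sub_self _)

/-- rational combinations of endomorphisms in terms of `RatComb` -/
lemma isRational_iff (e : ZMod 2) :
    IsRational HP M e ↔ RatComb (opMonoid HP M) (proj HP M e) := by
  constructor
  · rintro ⟨n, c, f, h⟩
    have h1 : proj HP M e = ∑ j, (c j : k) • rho HP M (f j) := by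
      refine Prod.ext ?_ ?_
      · rw [Prod.fst_sum]
        exact (h 0).symm
      · rw [Prod.snd_sum]
        exact (h 1).symm
    rw [h1]
    exact RatComb.sum _ _ fun j _ => (RatComb.of_mem
      (show rho HP M (f j) ∈ opMonoid HP M from ⟨f j, rfl⟩)).ratSmul (c j)
  · intro h
    obtain ⟨n, c, p, hp, hc⟩ := RatComb.exists_sum (E := k) h
    choose f hf using hp
    refine ⟨n, c, f, fun i => ?_⟩
    have h1 : proj HP M e = ∑ j, (c j : k) • rho HP M (f j) := by
      rw [hc]
      exact Finset.sum_congr rfl fun j _ => by rw [hf]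
    rcases two_cases i with rfl | rfl
    · have h2 := congrArg Prod.fst h1
      rw [Prod.fst_sum] at h2
      exact h2.symm
    · have h2 := congrArg Prod.snd h1
      rw [Prod.snd_sum] at h2
      exact h2.symm

lemma ratComb_proj_iff (e : ZMod 2) :
    RatComb (opMonoid HP M) (proj HP M e) ↔ RatComb (opMonoid HP M) (proj HP M 0) := by
  have h1 : RatComb (opMonoid HP M) (1 : Ops k ((HP 0).obj M) ((HP 1).obj M)) :=
    RatComb.of_mem (opMonoid HP M).one_mem
  have hneg : ∀ x, RatComb (opMonoid HP M) x → RatComb (opMonoid HP M) (1 - x) := by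
    intro x hx
    have h2 := hx.ratSmul (E := k) (-1)
    rw [Rat.cast_neg, Rat.cast_one, neg_one_smul] at h2
    rw [sub_eq_add_neg]
    exact h1.add h2
  rcases two_cases e with rfl | rfl
  · exact Iff.rfl
  · rw [proj_zero, proj_one]
    constructor
    · intro h
      rw [← one_sub_proj']
      exact hneg _ h
    · intro h
      rw [← one_sub_proj]
      exact hneg _ h

lemma bc_proj_zero (Ω : Type*) [Field Ω] [Algebra k Ω] : bc Ω (proj HP M 0) = (1, 0) := by
  rw [proj_zero]
  exact Prod.ext (LinearMap.baseChange_id) (LinearMap.baseChange_zero)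

lemma bc_proj_one (Ω : Type*) [Field Ω] [Algebra k Ω] : bc Ω (proj HP M 1) = (0, 1) := by
  rw [proj_one]
  exact Prod.ext (LinearMap.baseChange_zero) (LinearMap.baseChange_id)

lemma span_proj {Ω : Type*} [Field Ω] [Algebra k Ω] (e : ZMod 2)
    (h : bc Ω (proj HP M e) ∈ Submodule.span Ω (((opMonoid HP M).map (bcHom Ω) : Submonoid _) :
      Set (Ops Ω (Ω ⊗[k] (HP 0).obj M) (Ω ⊗[k] (HP 1).obj M)))) :
    ((1, 0) : Ops Ω (Ω ⊗[k] (HP 0).obj M) (Ω ⊗[k] (HP 1).obj M)) ∈
      Submodule.span Ω (((opMonoid HP M).map (bcHom Ω) : Submonoid _) :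
      Set (Ops Ω (Ω ⊗[k] (HP 0).obj M) (Ω ⊗[k] (HP 1).obj M))) := by
  rcases two_cases e with rfl | rfl
  · rwa [bc_proj_zero] at h
  · rw [bc_proj_one] at h
    exact swap_mem h

/-- Algebraicity with coefficients in `F` implies that the projector is in the `Ω`-span. -/
lemma span_of_isAlgebraic {Ω : Type*} [Field Ω] [Algebra k Ω] {F : Type*} [Field F]
    (ι : F →+* Ω) (e : ZMod 2) (h : IsAlgebraic HP Ω ι M e) :
    bc Ω (proj HP M e) ∈ Submodule.span Ω (((opMonoid HP M).map (bcHom Ω) : Submonoid _) :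
      Set (Ops Ω (Ω ⊗[k] (HP 0).obj M) (Ω ⊗[k] (HP 1).obj M))) := by
  obtain ⟨n, c, f, h⟩ := h
  have hif : ∀ (i : ZMod 2), (if i = e then (1 : Module.End k ((HP i).obj M)) else 0).baseChange Ω =
      if i = e then LinearMap.id else 0 := by
    intro i
    split_ifs
    · exact LinearMap.baseChange_id
    · exact LinearMap.baseChange_zero
  have h1 : bc Ω (proj HP M e) = ∑ j, ι (c j) • bc Ω (rho HP M (f j)) := by
    refine Prod.ext ?_ ?_
    · rw [Prod.fst_sum]
      exact (hif 0).trans (h 0).symm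
    · rw [Prod.snd_sum]
      exact (hif 1).trans (h 1).symm
  rw [h1]
  exact Submodule.sum_mem _ fun j _ => Submodule.smul_mem _ _
    (Submodule.subset_span ⟨rho HP M (f j), ⟨f j, rfl⟩, rfl⟩)

/-- A rational combination is algebraic for all fields of coefficients. -/
lemma isAlgebraic_of_isRational {Ω : Type*} [Field Ω] [Algebra k Ω] {F : Type*} [Field F]
    (ι : F →+* Ω) (e : ZMod 2) (h : IsRational HP M e) : IsAlgebraic HP Ω ι M e := by
  obtain ⟨n, c, f, h⟩ := h
  have hΩ : CharZero Ω := charZero_of_injective_algebraMap (algebraMap k Ω).injective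
  have hF : CharZero F := ⟨fun a b hab => by
    have h1 : ((a : ℕ) : Ω) = (b : ℕ) := by
      have := congrArg ι hab
      rwa [map_natCast, map_natCast] at this
    exact_mod_cast h1⟩
  refine ⟨n, fun j => (c j : F), f, fun i => ?_⟩
  have h1 : ∀ j, ι (c j : F) • (act HP i (f j)).baseChange Ω =
      ((c j : k) • act HP i (f j)).baseChange Ω := by
    intro j
    rw [LinearMap.baseChange_smul, map_ratCast, ← map_ratCast (algebraMap k Ω) (c j),
      algebraMap_smul]
  rw [Finset.sum_congr rfl fun j _ => h1 j]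
  have h2 : ∑ j, ((c j : k) • act HP i (f j)).baseChange Ω =
      (∑ j, (c j : k) • act HP i (f j)).baseChange Ω := by
    have := map_sum (LinearMap.baseChangeHom k Ω ((HP i).obj M) ((HP i).obj M))
      (fun j => (c j : k) • act HP i (f j)) Finset.univ
    exact this.symm
  rw [h2, h i]
  split_ifs
  · exact LinearMap.baseChange_id
  · exact LinearMap.baseChange_zero

variable [∀ i, FiniteDimensional k ((HP i).obj M)]

/-- `SignSeparated` gives the projector as a polynomial. -/
lemma isPolynomialIn_of_signSeparated (z : ∀ i : ZMod 2, Module.End k ((HP i).obj M))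
    (h : SignSeparated z) (e : ZMod 2) : IsPolynomialIn z e := by
  obtain ⟨⟨s, hs, h0⟩, ⟨t, ht, h1⟩⟩ := h
  have hmap : ∀ u : Multiset ℚ, (u.map fun q : ℚ => X - Polynomial.C (q : k)).prod =
      ((u.map fun q : ℚ => X - Polynomial.C q).prod).map (algebraMap ℚ k) := by
    intro u
    rw [Polynomial.map_multiset_prod, Multiset.map_map]
    congr 1
    refine Multiset.map_congr rfl fun q _ => ?_
    simp
  obtain ⟨a, b, hab⟩ := isCoprime_prod s t hs ht
  rw [hmap] at h0 h1
  set S := (s.map fun q : ℚ => X - Polynomial.C q).prod with hS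
  set T := (t.map fun q : ℚ => X - Polynomial.C q).prod with hT
  have hz0 : aeval (z 0) (S.map (algebraMap ℚ k)) = 0 := by
    rw [← h0]
    exact LinearMap.aeval_self_charpoly _
  have hz1 : aeval (z 1) (T.map (algebraMap ℚ k)) = 0 := by
    rw [← h1]
    exact LinearMap.aeval_self_charpoly _
  have hbT0 : aeval (z 0) ((b * T).map (algebraMap ℚ k)) = LinearMap.id := by
    have h2 : b * T = 1 - a * S := by linear_combination hab
    rw [h2, Polynomial.map_sub, Polynomial.map_mul, map_sub, map_mul, hz0, mul_zero, sub_zero,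
      Polynomial.map_one, map_one]
    rfl
  have hbT1 : aeval (z 1) ((b * T).map (algebraMap ℚ k)) = 0 := by
    rw [Polynomial.map_mul, map_mul, hz1, mul_zero]
  have haS0 : aeval (z 0) ((a * S).map (algebraMap ℚ k)) = 0 := by
    rw [Polynomial.map_mul, map_mul, hz0, mul_zero]
  have haS1 : aeval (z 1) ((a * S).map (algebraMap ℚ k)) = LinearMap.id := by
    have h2 : a * S = 1 - b * T := by linear_combination hab
    rw [h2, Polynomial.map_sub, Polynomial.map_mul, map_sub, map_mul, hz1, mul_zero, sub_zero,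
      Polynomial.map_one, map_one]
    rfl
  have h01 : (0 : ZMod 2) ≠ 1 := by decide
  rcases two_cases e with rfl | rfl
  · refine ⟨b * T, fun i => ?_⟩
    rcases two_cases i with rfl | rfl
    · rw [hbT0, if_pos rfl]
    · rw [hbT1, if_neg h01.symm]
  · refine ⟨a * S, fun i => ?_⟩
    rcases two_cases i with rfl | rfl
    · rw [haS0, if_neg h01]
    · rw [haS1, if_pos rfl]

variable {HP M} in
/-- A rational polynomial in the Casimir element is a rational combination. -/
lemma isRational_of_isPolynomialIn {d : ℕ} {f : Fin d → (M ⟶ M)}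
    {Δ : Matrix (Fin d) (Fin d) ℚ} (e : ZMod 2)
    (hp : IsPolynomialIn (casimir HP M f Δ) e) : IsRational HP M e := by
  rw [isRational_iff]
  obtain ⟨p, hp⟩ := hp
  have hz : RatComb (opMonoid HP M) (cas (fun i => rho HP M (f i)) Δ) := by
    unfold cas
    refine RatComb.sum _ _ fun a _ => RatComb.sum _ _ fun b _ => RatComb.ratSmul ?_ _
    exact RatComb.of_mem ((opMonoid HP M).mul_mem ⟨f a, rfl⟩ ⟨f b, rfl⟩)
  have h1 := hz.aeval (E := k) p
  have h2 : aeval (cas (fun i => rho HP M (f i)) Δ) (p.map (algebraMap ℚ k)) = proj HP M e := by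
    rw [casimir_eq]
    refine Prod.ext ?_ ?_
    · rw [aeval_fst]
      exact hp 0
    · rw [aeval_snd]
      exact hp 1
  rwa [h2] at h1

variable {HP M} in
/-- If the projector is in the span over `Ω`, the Casimir element is separated by signs. -/
lemma signSeparated_of_span {d : ℕ} {f : Fin d → (M ⟶ M)}
    {Γ Δ : Matrix (Fin d) (Fin d) ℚ} (h : IsNumericalBasis HP M f Γ Δ) {Ω : Type*} [Field Ω]
    [Algebra k Ω] [CharZero Ω]
    (hπ : ((1, 0) : Ops Ω (Ω ⊗[k] (HP 0).obj M) (Ω ⊗[k] (HP 1).obj M)) ∈ Submodule.span Ω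
      (((opMonoid HP M).map (bcHom Ω) : Submonoid _) :
        Set (Ops Ω (Ω ⊗[k] (HP 0).obj M) (Ω ⊗[k] (HP 1).obj M)))) :
    SignSeparated (casimir HP M f Δ) := by
  have h1 := isNumBasis_bc Ω (isNumBasis_of HP M h)
  have h2 := cas_split h1 hπ
  rw [← bc_cas, casimir_eq] at h2
  obtain ⟨h3, h4⟩ := h2
  change RatSplit _ ((casimir HP M f Δ 0).baseChange Ω).charpoly at h3
  change RatSplit _ ((casimir HP M f Δ 1).baseChange Ω).charpoly at h4
  rw [LinearMap.charpoly_baseChange] at h3 h4
  exact ⟨h3.of_map, h4.of_map⟩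

variable {HP M} in
/-- The same over `k`. -/
lemma signSeparated_of_span' {d : ℕ} {f : Fin d → (M ⟶ M)}
    {Γ Δ : Matrix (Fin d) (Fin d) ℚ} (h : IsNumericalBasis HP M f Γ Δ)
    (hπ : ((1, 0) : Ops k ((HP 0).obj M) ((HP 1).obj M)) ∈ Submodule.span k
      ((opMonoid HP M : Submonoid _) : Set (Ops k ((HP 0).obj M) ((HP 1).obj M)))) :
    SignSeparated (casimir HP M f Δ) := by
  have h2 := cas_split (isNumBasis_of HP M h) hπ
  rw [casimir_eq] at h2
  exact h2

lemma isCoprime_of_signSeparated {z : ∀ i : ZMod 2, Module.End k ((HP i).obj M)}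
    (h : SignSeparated z) : IsCoprime (z 0).charpoly (z 1).charpoly := by
  obtain ⟨⟨s, hs, h0⟩, ⟨t, ht, h1⟩⟩ := h
  have hmap : ∀ u : Multiset ℚ, (u.map fun q : ℚ => X - Polynomial.C (q : k)).prod =
      ((u.map fun q : ℚ => X - Polynomial.C q).prod).map (algebraMap ℚ k) := by
    intro u
    rw [Polynomial.map_multiset_prod, Multiset.map_map]
    congr 1
    refine Multiset.map_congr rfl fun q _ => ?_
    simp
  rw [h0, h1, hmap, hmap]
  exact (isCoprime_prod s t hs ht).map (Polynomial.mapRingHom (algebraMap ℚ k))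

lemma exists_numericalBasis (heul : ∀ f : M ⟶ M, ∃ n : ℤ, euler HP f = n) :
    ∃ (d : ℕ) (f : Fin d → (M ⟶ M)) (Γ Δ : Matrix (Fin d) (Fin d) ℚ),
      IsNumericalBasis HP M f Γ Δ := by
  obtain ⟨d, f, Γ, Δ, h⟩ := exists_numBasis (opMonoid HP M) (by
    rintro _ ⟨f, rfl⟩
    obtain ⟨n, hn⟩ := heul f
    exact ⟨n, by rw [← euler_eq, hn, Rat.cast_intCast]⟩)
  choose g hg using h.mem
  refine ⟨d, g, Γ, Δ, of_isNumBasis HP M ?_⟩
  have : (fun i => rho HP M (g i)) = f := funext hg
  rw [this]
  exact h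

variable {HP M} in
/-- **The equivalences.** -/
theorem main_iff {d : ℕ} {f : Fin d → (M ⟶ M)} {Γ Δ : Matrix (Fin d) (Fin d) ℚ}
    (h : IsNumericalBasis HP M f Γ Δ) (e : ZMod 2) :
    (IsRational HP M e ↔ SignSeparated (casimir HP M f Δ)) ∧
    (IsRational HP M e ↔ IsCoprime (casimir HP M f Δ 0).charpoly (casimir HP M f Δ 1).charpoly) ∧
    (IsRational HP M e ↔ IsPolynomialIn (casimir HP M f Δ) e) := by
  have h1 : IsRational HP M e → SignSeparated (casimir HP M f Δ) := by
    intro he
    exact signSeparated_of_span h (Ω := k) (span_proj HP M e (span_of_isAlgebraic HP M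
      (RingHom.id k) e (isAlgebraic_of_isRational HP M (RingHom.id k) e he)))
  have h2 : SignSeparated (casimir HP M f Δ) → IsPolynomialIn (casimir HP M f Δ) e := fun hs =>
    isPolynomialIn_of_signSeparated HP M _ hs e
  have h3 : IsPolynomialIn (casimir HP M f Δ) e → IsRational HP M e :=
    isRational_of_isPolynomialIn e
  have h4 : IsCoprime (casimir HP M f Δ 0).charpoly (casimir HP M f Δ 1).charpoly →
      SignSeparated (casimir HP M f Δ) := by
    rintro ⟨a, b, hab⟩
    refine signSeparated_of_span' h ?_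
    have h5 : ((1, 0) : Ops k ((HP 0).obj M) ((HP 1).obj M)) =
        aeval (cas (fun i => rho HP M (f i)) Δ) (b * (casimir HP M f Δ 1).charpoly) := by
      rw [casimir_eq]
      refine Prod.ext ?_ ?_
      · rw [aeval_fst, ← add_sub_cancel_left (a * (casimir HP M f Δ 0).charpoly)
          (b * (casimir HP M f Δ 1).charpoly), hab, map_sub, map_mul,
          LinearMap.aeval_self_charpoly, mul_zero, sub_zero, map_one]
      · rw [aeval_snd, map_mul, LinearMap.aeval_self_charpoly, mul_zero]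
    rw [h5]
    exact aeval_mem (cas_mem (isNumBasis_of HP M h)) _
  exact ⟨⟨h1, fun hs => h3 (h2 hs)⟩, ⟨fun he => isCoprime_of_signSeparated HP M (h1 he),
    fun hc => h3 (h2 (h4 hc))⟩, ⟨fun he => h2 (h1 he), h3⟩⟩

theorem isAlgebraic_iff (heul : ∀ f : M ⟶ M, ∃ n : ℤ, euler HP f = n) {Ω : Type*} [Field Ω]
    [Algebra k Ω] {F : Type*} [Field F] (ι : F →+* Ω) (e e' : ZMod 2) :
    IsAlgebraic HP Ω ι M e ↔ IsRational HP M e' := by
  obtain ⟨d, f, Γ, Δ, h⟩ := exists_numericalBasis HP M heul
  have hΩ : CharZero Ω := charZero_of_injective_algebraMap (algebraMap k Ω).injective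
  constructor
  · intro he
    exact (main_iff h e').1.2 (signSeparated_of_span h (span_proj HP M e
      (span_of_isAlgebraic HP M ι e he)))
  · intro he
    exact isAlgebraic_of_isRational HP M ι e ((main_iff h e).1.2 ((main_iff h e').1.1 he))

end

end Pool.Agent.T9h5.NK
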