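import Pool.Agent.T9h5.NK.BC

/-!
# Rational combinations of operators, and the existence of numerical bases
-/

set_option autoImplicit false
set_option linter.unusedSectionVars false

open Module Polynomial Finset TensorProduct

namespace Pool.Agent.T9h5.NK

section ratComb

variable {E : Type*} [Field E] [CharZero E] {A : Type*} [Ring A] [Algebra E A]

/-- A positive multiple of `x` is a sum of elements of `P` and their negatives. -/
def RatComb (P : Submonoid A) (x : A) : Prop :=
  ∃ N : ℕ, 0 < N ∧ (N : A) * x ∈ Subring.closure (P : Set A)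

variable {P : Submonoid A} {x y : A}

lemma RatComb.of_mem (h : x ∈ P) : RatComb P x :=
  ⟨1, one_pos, by rw [Nat.cast_one, one_mul]; exact Subring.subset_closure h⟩

lemma RatComb.add (hx : RatComb P x) (hy : RatComb P y) : RatComb P (x + y) := by
  obtain ⟨N, hN, h⟩ := hx
  obtain ⟨N', hN', h'⟩ := hy
  refine ⟨N * N', Nat.mul_pos hN hN', ?_⟩
  have h1 : ((N * N' : ℕ) : A) * (x + y) = (N' : A) * ((N : A) * x) + (N : A) * ((N' : A) * y) := by
    rw [mul_add, Nat.cast_mul, ← mul_assoc, ← mul_assoc, (Nat.cast_commute N (N' : A)).eq]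
  rw [h1]
  exact Subring.add_mem _ (Subring.mul_mem _ (natCast_mem _ _) h)
    (Subring.mul_mem _ (natCast_mem _ _) h')

lemma RatComb.mul (hx : RatComb P x) (hy : RatComb P y) : RatComb P (x * y) := by
  obtain ⟨N, hN, h⟩ := hx
  obtain ⟨N', hN', h'⟩ := hy
  refine ⟨N * N', Nat.mul_pos hN hN', ?_⟩
  have h1 : ((N * N' : ℕ) : A) * (x * y) = ((N : A) * x) * ((N' : A) * y) := by
    rw [Nat.cast_mul, mul_assoc, mul_assoc, ← mul_assoc (N' : A) x y, (Nat.cast_commute N' x).eq,
      mul_assoc]
  rw [h1]
  exact Subring.mul_mem _ h h'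

lemma RatComb.ratSmul (hx : RatComb P x) (q : ℚ) : RatComb P ((q : E) • x) := by
  obtain ⟨N, hN, h⟩ := hx
  refine ⟨N * q.den, Nat.mul_pos hN q.den_pos, ?_⟩
  have h1 : ((N * q.den : ℕ) : A) * ((q : E) • x) = (q.num : A) * ((N : A) * x) := by
    have h2 : ((N * q.den : ℕ) : A) = (((N : E) * (q.den : E)) • (1 : A)) := by
      rw [← Algebra.algebraMap_eq_smul_one, map_mul, map_natCast, map_natCast, Nat.cast_mul]
    have h3 : ((q.num : ℤ) : A) * ((N : A) * x) = ((q.num : E) * (N : E)) • x := by
      rw [Algebra.smul_def, map_mul, map_intCast, map_natCast, mul_assoc]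
    rw [h2, h3, smul_mul_assoc, one_mul, smul_smul]
    congr 1
    have h4 : (q : E) * (q.den : E) = (q.num : E) := by
      have h5 : (q * q.den : ℚ) = q.num := Rat.mul_den_eq_num q
      have h6 : (((q * q.den : ℚ)) : E) = ((q.num : ℚ) : E) := by rw [h5]
      rwa [Rat.cast_mul, Rat.cast_natCast, Rat.cast_intCast] at h6
    rw [mul_assoc, mul_comm (q.den : E), h4, mul_comm]
  rw [h1]
  exact Subring.mul_mem _ (intCast_mem _ _) h

lemma RatComb.zero : RatComb P (0 : A) := ⟨1, one_pos, by rw [mul_zero]; exact Subring.zero_mem _⟩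

lemma RatComb.sum {ι : Type*} (s : Finset ι) (a : ι → A) (h : ∀ i ∈ s, RatComb P (a i)) :
    RatComb P (∑ i ∈ s, a i) := by
  classical
  induction s using Finset.induction_on with
  | empty => rw [Finset.sum_empty]; exact RatComb.zero
  | insert i s hi ih =>
    rw [Finset.sum_insert hi]
    exact (h i (Finset.mem_insert_self _ _)).add (ih fun j hj => h j (Finset.mem_insert_of_mem hj))

lemma RatComb.aeval (hx : RatComb P x) (p : ℚ[X]) :
    RatComb P (Polynomial.aeval x (p.map (algebraMap ℚ E))) := by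
  induction p using Polynomial.induction_on' with
  | add p q hp hq =>
    rw [Polynomial.map_add, map_add]
    exact hp.add hq
  | monomial n a =>
    rw [Polynomial.map_monomial, aeval_monomial, ← Algebra.smul_def]
    have h1 : RatComb P (x ^ n) := by
      induction n with
      | zero => rw [pow_zero]; exact RatComb.of_mem P.one_mem
      | succ n ih => rw [pow_succ]; exact ih.mul hx
    exact h1.ratSmul a

/-- A rational combination is a linear combination of elements of `P` with rational coefficients. -/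
lemma RatComb.exists_sum (hx : RatComb P x) : ∃ (n : ℕ) (c : Fin n → ℚ) (p : Fin n → A),
    (∀ j, p j ∈ P) ∧ x = ∑ j, (c j : E) • p j := by
  obtain ⟨N, hN, h⟩ := hx
  have h1 : ∀ y ∈ AddSubgroup.closure (P : Set A), ∃ (n : ℕ) (c : Fin n → ℚ) (p : Fin n → A),
      (∀ j, p j ∈ P) ∧ y = ∑ j, (c j : E) • p j := by
    intro y hy
    induction hy using AddSubgroup.closure_induction with
    | mem y hy => exact ⟨1, fun _ => 1, fun _ => y, fun _ => hy, by simp⟩
    | zero => exact ⟨0, Fin.elim0, Fin.elim0, fun j => j.elim0, by simp⟩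
    | add y z _ _ hy hz =>
      obtain ⟨n, c, p, hp, rfl⟩ := hy
      obtain ⟨m, c', p', hp', rfl⟩ := hz
      refine ⟨n + m, Fin.append c c', Fin.append p p', ?_, ?_⟩
      · intro j
        refine Fin.addCases (fun i => ?_) (fun i => ?_) j
        · rw [Fin.append_left]; exact hp i
        · rw [Fin.append_right]; exact hp' i
      · rw [Fin.sum_univ_add]
        simp only [Fin.append_left, Fin.append_right]
    | neg y _ hy =>
      obtain ⟨n, c, p, hp, rfl⟩ := hy
      refine ⟨n, fun j => -c j, p, hp, ?_⟩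
      rw [← Finset.sum_neg_distrib]
      exact Finset.sum_congr rfl fun j _ => by rw [Rat.cast_neg, neg_smul]
  have h2 : (N : A) * x ∈ AddSubgroup.closure (P : Set A) := by
    have := Subring.mem_closure_iff.1 h
    rwa [Submonoid.closure_eq] at this
  obtain ⟨n, c, p, hp, hc⟩ := h1 _ h2
  refine ⟨n, fun j => (N : ℚ)⁻¹ * c j, p, hp, ?_⟩
  have h3 : x = ((N : E)⁻¹) • ((N : A) * x) := by
    rw [← nsmul_eq_mul, ← Nat.cast_smul_eq_nsmul E, smul_smul,
      inv_mul_cancel₀ (by exact_mod_cast hN.ne'), one_smul]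
  rw [h3, hc, Finset.smul_sum]
  exact Finset.sum_congr rfl fun j _ => by
    rw [smul_smul, Rat.cast_mul, Rat.cast_inv, Rat.cast_natCast]

end ratComb

end Pool.Agent.T9h5.NK
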